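import Mathlib

set_option autoImplicit false

namespace Pool.Agent.H.MP_288038_co

def inX (N x z y w : ℤ) : Prop :=
  0 ≤ y ∧ y ≤ 1 ∧ 0 ≤ w ∧ w ≤ 1 ∧ 0 ≤ x ∧ x + 2 * N * y + N * w ≤ 3 * N ∧ z ≤ 20 * N ^ 2 + 20 ∧
  (y = 1 → w = 0 → ∀ i : ℤ, (4 * i + 1) * x - 2 * i ^ 2 - 2 * i ≤ z) ∧
  (y = 0 → w = 1 → ∀ i : ℤ, 4 * i * x - 4 * i ^ 2 + i ≤ z ∧ (4 * i + 1) * x - 4 * i ^ 2 - i ≤ z) ∧
  (y = 0 → w = 0 → ∀ i : ℤ, (8 * i + 1) * (x - 3 * i - 1) + 12 * i ^ 2 + 8 * i - 2 ≤ 2 * z ∧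
    (4 * i + 1) * (x - 3 * i - 1) + 6 * i ^ 2 + 4 * i - 1 ≤ z) ∧
  (y = 1 → w = 1 → 0 ≤ z)

lemma q1 (t : ℤ) : 0 ≤ t * (t - 1) := by
  rcases le_or_gt t 0 with h | h
  · exact mul_nonneg_of_nonpos_of_nonpos h (by omega)
  · exact mul_nonneg h.le (by omega)

lemma q2 (t : ℤ) : 0 ≤ t * (t + 1) := by have := q1 (-t); nlinarith

lemma memA (N j z : ℤ) (h0 : 0 ≤ j) (h1 : j ≤ N) (h2 : 2 * j ^ 2 - j ≤ z)
    (h3 : z ≤ 20 * N ^ 2 + 20) : inX N j z 1 0 := by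
  refine ⟨by norm_num, le_rfl, le_rfl, by norm_num, h0, by linarith, h3, fun _ _ i => ?_,
    by norm_num, by norm_num, by norm_num⟩
  have := q1 (j - i); nlinarith

lemma memB0 (N j z : ℤ) (h0 : 0 ≤ j) (h1 : j ≤ N) (h2 : 4 * j ^ 2 + j ≤ z)
    (h3 : z ≤ 20 * N ^ 2 + 20) : inX N (2 * j) z 0 1 := by
  refine ⟨le_rfl, by norm_num, by norm_num, le_rfl, by linarith, by linarith, h3, by norm_num,
    fun _ _ i => ?_, by norm_num, by norm_num⟩
  have := q1 (j - i); have := q2 (j - i); have := sq_nonneg (j - i)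
  constructor <;> nlinarith

lemma memB1 (N j z : ℤ) (h0 : 0 ≤ j) (h1 : j + 1 ≤ N) (h2 : 4 * j ^ 2 + 5 * j + 1 ≤ z)
    (h3 : z ≤ 20 * N ^ 2 + 20) : inX N (2 * j + 1) z 0 1 := by
  refine ⟨le_rfl, by norm_num, by norm_num, le_rfl, by linarith, by linarith, h3, by norm_num,
    fun _ _ i => ?_, by norm_num, by norm_num⟩
  have := q2 (j - i); have := q2 (2 * (j - i) + 1); have := q2 (j - i + 1)
  have := sq_nonneg (j - i)
  constructor <;> nlinarith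

lemma memC (N x z i : ℤ) (h0 : 0 ≤ x) (h1 : x ≤ 3 * N) (a : 3 * i ≤ x) (b : x ≤ 3 * i + 2)
    (h2 : (8 * i + 1) * x - 12 * i ^ 2 - 3 * i - 3 ≤ 2 * z)
    (h3 : z ≤ 20 * N ^ 2 + 20) : inX N x z 0 0 := by
  refine ⟨le_rfl, by norm_num, le_rfl, by norm_num, h0, by linarith, h3, by norm_num,
    by norm_num, fun _ _ l => ?_, by norm_num⟩
  have := q1 (i - l); have := q2 (i - l); have := sq_nonneg (i - l)
  obtain h | h | h : x = 3 * i ∨ x = 3 * i + 1 ∨ x = 3 * i + 2 := by omega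
  · have h4 : 6 * i ^ 2 - 1 ≤ z := by
      have : 12 * i ^ 2 - 3 ≤ 2 * z := by subst h; nlinarith
      omega
    subst h; constructor <;> nlinarith
  · have h4 : 6 * i ^ 2 + 4 * i - 1 ≤ z := by subst h; nlinarith
    subst h; constructor <;> nlinarith
  · have h4 : 6 * i ^ 2 + 8 * i ≤ z := by
      have : 12 * i ^ 2 + 16 * i - 1 ≤ 2 * z := by subst h; nlinarith
      omega
    have := q2 (i - l + 1)
    have := q2 (3 * (i - l) + 2)
    subst h; constructor <;> nlinarith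

lemma memD (N : ℤ) : inX N 0 0 1 1 := by
  refine ⟨by norm_num, le_rfl, by norm_num, le_rfl, le_rfl, by linarith, by positivity,
    by norm_num, by norm_num, by norm_num, fun _ _ => le_rfl⟩

lemma memAB0 (N j i : ℤ) (h0 : 0 ≤ j) (h1 : j ≤ N) (h2 : 0 ≤ i) (h3 : i ≤ N) (h : j ≠ i) :
    inX N (j + 2 * i) (2 * j ^ 2 - j - 1 + (4 * i ^ 2 + i - 1)) 0 0 := by
  have b1 := pow_le_pow_left₀ h0 h1 2
  have b2 := pow_le_pow_left₀ h2 h3 2
  have b3 := q1 N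
  refine ⟨le_rfl, by norm_num, le_rfl, by norm_num, by linarith, by linarith, by nlinarith,
    by norm_num, by norm_num, fun _ _ l => ?_, by norm_num⟩
  have a1 := q1 (j - l); have a2 := q1 (i - l); have a3 := sq_nonneg (j - l)
  have a4 := sq_nonneg (i - l)
  have a5 : 1 ≤ (j - l) ^ 2 + (i - l) ^ 2 := by
    by_cases e : j - l = 0
    · have : 0 < (i - l) ^ 2 := by
        have : i - l ≠ 0 := by omega
        positivity
      linarith
    · have : 0 < (j - l) ^ 2 := by positivity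
      linarith
  constructor <;> nlinarith

lemma memAB1 (N j i : ℤ) (h0 : 0 ≤ j) (h1 : j ≤ N) (h2 : 0 ≤ i) (h3 : i + 1 ≤ N) :
    inX N (j + (2 * i + 1)) (2 * j ^ 2 - j - 1 + (4 * i ^ 2 + 5 * i)) 0 0 := by
  refine ⟨le_rfl, by norm_num, le_rfl, by norm_num, by linarith, by linarith, by nlinarith,
    by norm_num, by norm_num, fun _ _ l => ?_, by norm_num⟩
  have a1 := q1 (j - l); have a2 := q2 (i - l); have a3 := sq_nonneg (j - l)
  have a4 := sq_nonneg (i - l)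
  constructor <;> nlinarith

def J (i t x z y w : ℤ) : ℤ :=
  -(16 * i + 2) * x + 4 * z + -(16 * i ^ 2 + 6 - t) * y + -(8 * i ^ 2 + 6 * i + t) * w
    + (24 * i ^ 2 + 6 * i + 6)

lemma Jvalid (N i t x z y w : ℤ) (t0 : 0 ≤ t) (t6 : t ≤ 6) (h : inX N x z y w) :
    0 ≤ J i t x z y w := by
  obtain ⟨a1, a2, a3, a4, a5, a6, a7, hA, hB, hC, hD⟩ := h
  unfold J
  obtain rfl | rfl : y = 0 ∨ y = 1 := by omega
  · obtain rfl | rfl : w = 0 ∨ w = 1 := by omega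
    · have := (hC rfl rfl i).1; nlinarith
    · have := hB rfl rfl i; nlinarith [this.1, this.2]
  · obtain rfl | rfl : w = 0 ∨ w = 1 := by omega
    · have h1 := hA rfl rfl i
      have h2 := hA rfl rfl (i - 1)
      nlinarith
    · have := hD rfl rfl
      have : x = 0 := by linarith
      subst this; nlinarith

lemma lowz (N x z y w : ℤ) (h : inX N x z y w) : 0 ≤ z + 2 * (2 - y - w) := by
  obtain ⟨a1, a2, a3, a4, a5, a6, a7, hA, hB, hC, hD⟩ := h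
  obtain rfl | rfl : y = 0 ∨ y = 1 := by omega
  · obtain rfl | rfl : w = 0 ∨ w = 1 := by omega
    · have := (hC rfl rfl 0).2; nlinarith
    · have := (hB rfl rfl 0).1; nlinarith
  · obtain rfl | rfl : w = 0 ∨ w = 1 := by omega
    · have h1 := hA rfl rfl 0; nlinarith
    · have := hD rfl rfl; nlinarith

def tA (j x z y w : ℤ) : Prop := y = 1 ∧ w = 0 ∧ x = j ∧ z < 2 * j ^ 2 - j
def tB0 (j x z y w : ℤ) : Prop := y = 0 ∧ w = 1 ∧ x = 2 * j ∧ z < 4 * j ^ 2 + j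
def tB1 (j x z y w : ℤ) : Prop := y = 0 ∧ w = 1 ∧ x = 2 * j + 1 ∧ z < 4 * j ^ 2 + 5 * j + 1
def tC (j x z y w : ℤ) : Prop :=
  y = 0 ∧ w = 0 ∧ 2 * z < (8 * j + 1) * x - 12 * j ^ 2 - 3 * j - 3

lemma classify (N x z y w : ℤ) (h : ¬ inX N x z y w) :
    y < 0 ∨ 1 - y < 0 ∨ w < 0 ∨ 1 - w < 0 ∨ x < 0 ∨ 3 * N - x - 2 * N * y - N * w < 0 ∨
      20 * N ^ 2 + 20 - z < 0 ∨ z + 2 * (2 - y - w) < 0 ∨
      ∃ j, 0 ≤ j ∧ j ≤ N ∧ (tA j x z y w ∨ tB0 j x z y w ∨ tB1 j x z y w ∨ tC j x z y w) := by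
  by_contra hc
  simp only [not_or, not_lt, not_exists, not_and] at hc
  obtain ⟨a1, a2, a3, a4, a5, a6, a7, a8, hj⟩ := hc
  apply h
  obtain rfl | rfl : y = 0 ∨ y = 1 := by omega
  · obtain rfl | rfl : w = 0 ∨ w = 1 := by omega
    · have hh := (hj (x / 3) (by omega) (by omega)).2.2.2
      apply memC N x z (x / 3) a5 (by linarith) (by omega) (by omega) _ (by linarith)
      by_contra h2
      exact hh ⟨rfl, rfl, not_le.1 h2⟩
    · obtain ⟨j, rfl | rfl⟩ : ∃ j, x = 2 * j ∨ x = 2 * j + 1 := ⟨x / 2, by omega⟩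
      · have hh := (hj j (by omega) (by omega)).2.1
        apply memB0 N j z (by omega) (by omega) _ (by linarith)
        by_contra h2
        exact hh ⟨rfl, rfl, rfl, not_le.1 h2⟩
      · have hh := (hj j (by omega) (by omega)).2.2.1
        apply memB1 N j z (by omega) (by omega) _ (by linarith)
        by_contra h2
        exact hh ⟨rfl, rfl, rfl, not_le.1 h2⟩
  · obtain rfl | rfl : w = 0 ∨ w = 1 := by omega
    · have hh := (hj x a5 (by omega)).1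
      apply memA N x z a5 (by omega) _ (by linarith)
      by_contra h2
      exact hh ⟨rfl, rfl, rfl, not_le.1 h2⟩
    · exact ⟨a1, by norm_num, a3, by norm_num, a5, by linarith, by linarith, by norm_num,
        by norm_num, by norm_num, fun _ _ => by linarith⟩

lemma JA (j t x z y w : ℤ) (h : tA j x z y w) (ht : t ≤ 3) : J j t x z y w < 0 := by
  obtain ⟨rfl, rfl, rfl, h⟩ := h; unfold J; nlinarith
lemma JA' (j x z y w : ℤ) (h : tA (j + 1) x z y w) : J j 0 x z y w < 0 := by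
  obtain ⟨rfl, rfl, rfl, h⟩ := h; unfold J; nlinarith
lemma JB0 (j t x z y w : ℤ) (h : tB0 j x z y w) (ht : 3 ≤ t) : J j t x z y w < 0 := by
  obtain ⟨rfl, rfl, rfl, h⟩ := h; unfold J; nlinarith
lemma JB1 (j x z y w : ℤ) (h : tB1 j x z y w) : J j 6 x z y w < 0 := by
  obtain ⟨rfl, rfl, rfl, h⟩ := h; unfold J; nlinarith
lemma JB1' (j x z y w : ℤ) (h : tB1 (j - 1) x z y w) : J j 6 x z y w < 0 := by
  obtain ⟨rfl, rfl, rfl, h⟩ := h; unfold J; nlinarith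
lemma JC (j t x z y w : ℤ) (h : tC j x z y w) : J j t x z y w < 0 := by
  obtain ⟨rfl, rfl, h⟩ := h; unfold J; nlinarith

end Pool.Agent.H.MP_288038_co
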