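import Pool.Agent.H.MP_288038_co.Lad

set_option autoImplicit false

namespace Pool.Agent.H.MP_288038_co

def cst {d : ℕ} (v : Fin d → ℤ) : Fin d → ℝ := fun i => (v i : ℝ)

def X (N : ℤ) : Set (Fin 4 → ℤ) := {v | inX N (v 0) (v 1) (v 2) (v 3)}

lemma X_finite (N : ℤ) (hN : 0 ≤ N) : (X N).Finite := by
  apply (Set.finite_Icc (fun _ => -4) (fun _ => 20 * N ^ 2 + 20 + 3 * N)).subset
  intro v hv
  have hz := lowz _ _ _ _ _ hv
  obtain ⟨a1, a2, a3, a4, a5, a6, a7, -⟩ := hv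
  have b1 : 0 ≤ N * v 2 := by positivity
  have b2 : 0 ≤ N * v 3 := by positivity
  have b3 := sq_nonneg N
  constructor <;> intro i <;> fin_cases i <;> simp <;> nlinarith

lemma conv_valid {S : Set (Fin 4 → ℤ)} (c0 c1 c2 c3 c : ℤ)
    (h : ∀ v ∈ S, 0 ≤ c0 * v 0 + c1 * v 1 + c2 * v 2 + c3 * v 3 + c) :
    ∀ p ∈ convexHull ℝ (cst '' S), (0 : ℝ) ≤ c0 * p 0 + c1 * p 1 + c2 * p 2 + c3 * p 3 + c := by
  intro p hp
  have : convexHull ℝ (cst '' S) ⊆
      {p | (0 : ℝ) ≤ c0 * p 0 + c1 * p 1 + c2 * p 2 + c3 * p 3 + c} := by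
    apply convexHull_min
    · rintro _ ⟨v, hv, rfl⟩
      have := h v hv
      simp only [Set.mem_ofPred_eq, cst]
      exact_mod_cast this
    · intro p hp q hq a b ha hb hab
      simp only [Set.mem_ofPred_eq, Pi.add_apply, Pi.smul_apply, smul_eq_mul] at hp hq ⊢
      have h1 := mul_nonneg ha hp
      have h2 := mul_nonneg hb hq
      have : (c : ℝ) = a * c + b * c := by rw [← add_mul, hab, one_mul]
      nlinarith
  exact this hp

lemma sep {S : Set (Fin 4 → ℤ)} (c0 c1 c2 c3 c : ℤ)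
    (h : ∀ v ∈ S, 0 ≤ c0 * v 0 + c1 * v 1 + c2 * v 2 + c3 * v 3 + c) (p q : Fin 4 → ℤ)
    (hp : c0 * p 0 + c1 * p 1 + c2 * p 2 + c3 * p 3 + c < 0)
    (hq : c0 * q 0 + c1 * q 1 + c2 * q 2 + c3 * q 3 + c < 0) :
    ¬ (segment ℝ (cst p) (cst q) ∩ convexHull ℝ (cst '' S)).Nonempty := by
  rintro ⟨_, ⟨a, b, ha, hb, hab, rfl⟩, h2⟩
  have h3 := conv_valid c0 c1 c2 c3 c h _ h2
  simp only [Pi.add_apply, Pi.smul_apply, smul_eq_mul, cst] at h3
  have hp' : (c0 : ℝ) * p 0 + c1 * p 1 + c2 * p 2 + c3 * p 3 + c ≤ -1 := by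
    have : c0 * p 0 + c1 * p 1 + c2 * p 2 + c3 * p 3 + c ≤ -1 := by omega
    exact_mod_cast this
  have hq' : (c0 : ℝ) * q 0 + c1 * q 1 + c2 * q 2 + c3 * q 3 + c ≤ -1 := by
    have : c0 * q 0 + c1 * q 1 + c2 * q 2 + c3 * q 3 + c ≤ -1 := by omega
    exact_mod_cast this
  have h1 := mul_le_mul_of_nonneg_left hp' ha
  have h2 := mul_le_mul_of_nonneg_left hq' hb
  have : (c : ℝ) = a * c + b * c := by rw [← add_mul, hab, one_mul]
  nlinarith

/-- the two points are cut off by one common valid inequality -/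
def Comp (N : ℤ) (p q : Fin 4 → ℤ) : Prop :=
  ¬ (segment ℝ (cst p) (cst q) ∩ convexHull ℝ (cst '' X N)).Nonempty

lemma compJ (N i t : ℤ) (t0 : 0 ≤ t) (t6 : t ≤ 6) (p q : Fin 4 → ℤ)
    (hp : J i t (p 0) (p 1) (p 2) (p 3) < 0) (hq : J i t (q 0) (q 1) (q 2) (q 3) < 0) :
    Comp N p q :=
  sep _ _ _ _ _ (fun v hv => Jvalid N i t _ _ _ _ t0 t6 hv) p q hp hq

def box (N c x z y w : ℤ) : Prop :=
  (c = -1 ∧ y < 0) ∨ (c = -2 ∧ 1 - y < 0) ∨ (c = -3 ∧ w < 0) ∨ (c = -4 ∧ 1 - w < 0) ∨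
  (c = -5 ∧ x < 0) ∨ (c = -6 ∧ 3 * N - x - 2 * N * y - N * w < 0) ∨
  (c = -7 ∧ 20 * N ^ 2 + 20 - z < 0) ∨ (c = -8 ∧ z + 2 * (2 - y - w) < 0)

lemma compBox (N c : ℤ) (p q : Fin 4 → ℤ) (hp : box N c (p 0) (p 1) (p 2) (p 3))
    (hq : box N c (q 0) (q 1) (q 2) (q 3)) : Comp N p q := by
  unfold box at hp hq
  rcases hp with ⟨rfl, hp⟩ | ⟨rfl, hp⟩ | ⟨rfl, hp⟩ | ⟨rfl, hp⟩ | ⟨rfl, hp⟩ | ⟨rfl, hp⟩ |
    ⟨rfl, hp⟩ | ⟨rfl, hp⟩ <;> norm_num at hq
  · exact sep 0 0 1 0 0 (fun v hv => by have := hv.1; linarith) p q (by linarith) (by linarith)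
  · exact sep 0 0 (-1) 0 1 (fun v hv => by have := hv.2.1; linarith) p q (by linarith)
      (by linarith)
  · exact sep 0 0 0 1 0 (fun v hv => by have := hv.2.2.1; linarith) p q (by linarith)
      (by linarith)
  · exact sep 0 0 0 (-1) 1 (fun v hv => by have := hv.2.2.2.1; linarith) p q (by linarith)
      (by linarith)
  · exact sep 1 0 0 0 0 (fun v hv => by have := hv.2.2.2.2.1; linarith) p q (by linarith)
      (by linarith)
  · exact sep (-1) 0 (-2 * N) (-N) (3 * N) (fun v hv => by have := hv.2.2.2.2.2.1; linarith) p q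
      (by linarith) (by linarith)
  · exact sep 0 (-1) 0 0 (20 * N ^ 2 + 20) (fun v hv => by have := hv.2.2.2.2.2.2.1; linarith) p q
      (by linarith) (by linarith)
  · exact sep 0 1 (-2) (-2) 4 (fun v hv => by have := lowz _ _ _ _ _ hv; linarith) p q
      (by linarith) (by linarith)

lemma classify' (N : ℤ) (v : Fin 4 → ℤ) (h : v ∉ X N) :
    (∃ c, -8 ≤ c ∧ c ≤ -1 ∧ box N c (v 0) (v 1) (v 2) (v 3)) ∨
      ∃ j, 0 ≤ j ∧ j ≤ N ∧ (tA j (v 0) (v 1) (v 2) (v 3) ∨ tB0 j (v 0) (v 1) (v 2) (v 3) ∨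
        tB1 j (v 0) (v 1) (v 2) (v 3) ∨ tC j (v 0) (v 1) (v 2) (v 3)) := by
  rcases classify N _ _ _ _ h with h | h | h | h | h | h | h | h | h
  · exact Or.inl ⟨-1, by norm_num, by norm_num, by simp [box, h]⟩
  · exact Or.inl ⟨-2, by norm_num, by norm_num, by unfold box; tauto⟩
  · exact Or.inl ⟨-3, by norm_num, by norm_num, by unfold box; tauto⟩
  · exact Or.inl ⟨-4, by norm_num, by norm_num, by unfold box; tauto⟩
  · exact Or.inl ⟨-5, by norm_num, by norm_num, by unfold box; tauto⟩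
  · exact Or.inl ⟨-6, by norm_num, by norm_num, by unfold box; tauto⟩
  · exact Or.inl ⟨-7, by norm_num, by norm_num, by unfold box; tauto⟩
  · exact Or.inl ⟨-8, by norm_num, by norm_num, by unfold box; tauto⟩
  · exact Or.inr h

lemma latconv (N : ℤ) (v : Fin 4 → ℤ) (hv : cst v ∈ convexHull ℝ (cst '' X N)) : v ∈ X N := by
  by_contra h
  have hc : Comp N v v := by
    rcases classify' N v h with ⟨c, _, _, hb⟩ | ⟨j, _, _, h | h | h | h⟩
    · exact compBox N c v v hb hb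
    · exact compJ N j 0 (by norm_num) (by norm_num) v v (JA _ _ _ _ _ _ h (by norm_num))
        (JA _ _ _ _ _ _ h (by norm_num))
    · exact compJ N j 6 (by norm_num) (by norm_num) v v (JB0 _ _ _ _ _ _ h (by norm_num))
        (JB0 _ _ _ _ _ _ h (by norm_num))
    · exact compJ N j 6 (by norm_num) (by norm_num) v v (JB1 _ _ _ _ _ h) (JB1 _ _ _ _ _ h)
    · exact compJ N j 6 (by norm_num) (by norm_num) v v (JC _ _ _ _ _ _ h) (JC _ _ _ _ _ _ h)
  exact hc ⟨cst v, left_mem_segment _ _ _, hv⟩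

theorem hiding_le (n : ℕ) (H : Set (Fin 4 → ℤ)) (h1 : ∀ v ∈ H, v ∉ X n)
    (h2 : ∀ p ∈ H, ∀ q ∈ H, p ≠ q → ¬ Comp n p q) : H.encard ≤ (n + 10 : ℕ) := by
  let E : ℤ → Prop := fun j => ∃ u ∈ H, tA j (u 0) (u 1) (u 2) (u 3)
  let Cl : (Fin 4 → ℤ) → ℤ → Prop := fun v c => -8 ≤ c ∧ c ≤ n + 1 ∧
    ((c ≤ -1 ∧ box n c (v 0) (v 1) (v 2) (v 3)) ∨ (0 ≤ c ∧ (tA c (v 0) (v 1) (v 2) (v 3) ∨
      tB0 c (v 0) (v 1) (v 2) (v 3) ∨ tC c (v 0) (v 1) (v 2) (v 3) ∨
      (tB1 c (v 0) (v 1) (v 2) (v 3) ∧ ¬ E c) ∨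
      (tB1 (c - 1) (v 0) (v 1) (v 2) (v 3) ∧ E (c - 1)))))
  have ex : ∀ v ∈ H, ∃ c, Cl v c := by
    intro v hv
    rcases classify' n v (h1 v hv) with ⟨c, a, b, hb⟩ | ⟨j, a, b, h | h | h | h⟩
    · exact ⟨c, a, by omega, Or.inl ⟨b, hb⟩⟩
    · exact ⟨j, by omega, by omega, Or.inr ⟨a, Or.inl h⟩⟩
    · exact ⟨j, by omega, by omega, Or.inr ⟨a, Or.inr (Or.inl h)⟩⟩
    · by_cases e : E j
      · refine ⟨j + 1, by omega, by omega, Or.inr ⟨by omega, ?_⟩⟩
        rw [add_sub_cancel_right]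
        exact Or.inr (Or.inr (Or.inr (Or.inr ⟨h, e⟩)))
      · exact ⟨j, by omega, by omega, Or.inr ⟨a, Or.inr (Or.inr (Or.inr (Or.inl ⟨h, e⟩)))⟩⟩
    · exact ⟨j, by omega, by omega, Or.inr ⟨a, Or.inr (Or.inr (Or.inl h))⟩⟩
  have key : ∀ c, ∀ p ∈ H, tA c (p 0) (p 1) (p 2) (p 3) → ¬ E (c - 1) := by
    rintro c p hp hA ⟨u, hu, hu2⟩
    apply h2 p hp u hu
    · rintro rfl
      have := hA.2.2.1; have := hu2.2.2.1; omega
    · apply compJ n (c - 1) 0 (by norm_num) (by norm_num)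
      · apply JA'; rwa [sub_add_cancel]
      · exact JA _ _ _ _ _ _ hu2 (by norm_num)
  have inj : ∀ c, ∀ p ∈ H, ∀ q ∈ H, Cl p c → Cl q c → p = q := by
    intro c p hp q hq ⟨_, _, cp⟩ ⟨_, _, cq⟩
    by_contra hne
    apply h2 p hp q hq hne
    rcases cp with ⟨a, cp⟩ | ⟨a, cp⟩ <;> rcases cq with ⟨b, cq⟩ | ⟨b, cq⟩
    · exact compBox n c p q cp cq
    · omega
    · omega
    have j3 : ∀ v : Fin 4 → ℤ, (tA c (v 0) (v 1) (v 2) (v 3) ∨ tB0 c (v 0) (v 1) (v 2) (v 3) ∨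
        tC c (v 0) (v 1) (v 2) (v 3)) → J c 3 (v 0) (v 1) (v 2) (v 3) < 0 := by
      rintro v (h | h | h)
      · exact JA _ _ _ _ _ _ h le_rfl
      · exact JB0 _ _ _ _ _ _ h le_rfl
      · exact JC _ _ _ _ _ _ h
    have j6 : ∀ v : Fin 4 → ℤ, (tB0 c (v 0) (v 1) (v 2) (v 3) ∨ tC c (v 0) (v 1) (v 2) (v 3) ∨
        (tB1 c (v 0) (v 1) (v 2) (v 3) ∧ ¬ E c) ∨
        (tB1 (c - 1) (v 0) (v 1) (v 2) (v 3) ∧ E (c - 1))) →
        J c 6 (v 0) (v 1) (v 2) (v 3) < 0 := by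
      rintro v (h | h | h | h)
      · exact JB0 _ _ _ _ _ _ h (by norm_num)
      · exact JC _ _ _ _ _ _ h
      · exact JB1 _ _ _ _ _ h.1
      · exact JB1' _ _ _ _ _ h.1
    rcases cp with cp | cp
    · rcases cq with cq | cq | cq | cq | cq
      · exact compJ n c 3 (by norm_num) (by norm_num) p q (j3 p (by tauto)) (j3 q (by tauto))
      · exact compJ n c 3 (by norm_num) (by norm_num) p q (j3 p (by tauto)) (j3 q (by tauto))
      · exact compJ n c 3 (by norm_num) (by norm_num) p q (j3 p (by tauto)) (j3 q (by tauto))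
      · exact absurd ⟨p, hp, cp⟩ cq.2
      · exact absurd cq.2 (key c p hp cp)
    · rcases cq with cq | cq
      · rcases cp with cp | cp | cp | cp
        · exact compJ n c 3 (by norm_num) (by norm_num) p q (j3 p (by tauto)) (j3 q (by tauto))
        · exact compJ n c 3 (by norm_num) (by norm_num) p q (j3 p (by tauto)) (j3 q (by tauto))
        · exact absurd ⟨q, hq, cq⟩ cp.2
        · exact absurd cp.2 (key c q hq cq)
      · exact compJ n c 6 (by norm_num) (by norm_num) p q (j6 p cp) (j6 q cq)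
  classical
  choose! f hf using ex
  have := Set.encard_le_encard_of_injOn (f := f) (s := H)
    (t := ((Finset.Icc (-8 : ℤ) (n + 1) : Finset ℤ) : Set ℤ))
    (fun v hv => by simpa using ⟨(hf v hv).1, (hf v hv).2.1⟩)
    (fun p hp q hq e => inj (f p) p hp q hq (hf p hp) (e ▸ hf q hq))
  rw [Set.encard_coe_eq_coe_finsetCard, Int.card_Icc] at this
  refine this.trans (le_of_eq ?_)
  congr 1

def pA (j : ℤ) : Fin 4 → ℤ := ![j, 2 * j ^ 2 - j - 1, 1, 0]
def pB0 (j : ℤ) : Fin 4 → ℤ := ![2 * j, 4 * j ^ 2 + j - 1, 0, 1]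
def pB1 (j : ℤ) : Fin 4 → ℤ := ![2 * j + 1, 4 * j ^ 2 + 5 * j, 0, 1]

lemma pA_not (N j : ℤ) : pA j ∉ X N := by
  intro h
  have := h.2.2.2.2.2.2.2.1 rfl rfl j
  simp [pA] at this; nlinarith
lemma pB0_not (N j : ℤ) : pB0 j ∉ X N := by
  intro h
  have := (h.2.2.2.2.2.2.2.2.1 rfl rfl j).1
  simp [pB0] at this; nlinarith
lemma pB1_not (N j : ℤ) : pB1 j ∉ X N := by
  intro h
  have := (h.2.2.2.2.2.2.2.2.1 rfl rfl j).2
  simp [pB1] at this; nlinarith

lemma card_le_two (S : Finset ℤ) (h : ∀ a ∈ S, ∀ b ∈ S, ¬ a + 2 ≤ b) : S.card ≤ 2 := by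
  rcases S.eq_empty_or_nonempty with rfl | hS
  · simp
  · have : S ⊆ {S.min' hS, S.min' hS + 1} := by
      intro b hb
      have h1 := S.min'_le b hb
      have h2 := h _ (S.min'_mem hS) b hb
      simp only [Finset.mem_insert, Finset.mem_singleton]; omega
    exact (Finset.card_le_card this).trans Finset.card_le_two

open Classical in
lemma weight (N : ℤ) (a : Fin 4 → ℝ) (b : ℝ) (hv : ∀ v ∈ X N, a ⬝ᵥ cst v ≤ b) :
    2 * ((Finset.Ico 0 N).filter fun j => b < a ⬝ᵥ cst (pA j)).card +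
    2 * ((Finset.Ico 0 N).filter fun j => b < a ⬝ᵥ cst (pB0 j)).card +
    ((Finset.Ico 0 N).filter fun j => b < a ⬝ᵥ cst (pB1 j)).card ≤ 4 := by
  have hide : ∀ p q c d : Fin 4 → ℤ, c ∈ X N → d ∈ X N → p + q = c + d → b < a ⬝ᵥ cst p →
      b < a ⬝ᵥ cst q → False := by
    intro p q c d hc hd e hp hq
    have h1 := hv c hc
    have h2 := hv d hd
    have : cst p + cst q = cst c + cst d := by
      funext i
      have := congrFun e i
      simp only [Pi.add_apply, cst] at this ⊢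
      exact_mod_cast this
    have h3 := congrArg (fun u => a ⬝ᵥ u) this
    simp only [dotProduct_add] at h3
    linarith
  set SA := (Finset.Ico 0 N).filter fun j => b < a ⬝ᵥ cst (pA j) with hSA
  set S0 := (Finset.Ico 0 N).filter fun j => b < a ⬝ᵥ cst (pB0 j) with hS0
  set S1 := (Finset.Ico 0 N).filter fun j => b < a ⬝ᵥ cst (pB1 j) with hS1
  have hN := q1 N
  have cA : SA.card ≤ 2 := by
    apply card_le_two
    intro j hj k hk hjk
    simp only [hSA, Finset.mem_filter, Finset.mem_Ico] at hj hk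
    have b1 := pow_le_pow_left₀ hk.1.1 hk.1.2.le 2
    have b2 := pow_le_pow_left₀ (by omega : 0 ≤ j + 1) (by omega : j + 1 ≤ N) 2
    refine hide _ _ ![j + 1, 2 * (j + 1) ^ 2 - (j + 1), 1, 0]
      ![k - 1, 2 * k ^ 2 - k - 4 * j - 3, 1, 0] ?_ ?_ ?_ hj.2 hk.2
    · exact memA N _ _ (by simp; omega) (by simp; omega) (by simp) (by simp; nlinarith)
    · exact memA N _ _ (by simp; omega) (by simp; omega) (by simp; nlinarith)
        (by simp; nlinarith)
    · funext i; fin_cases i <;> simp [pA] <;> ring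
  have c1 : S1.card ≤ 2 := by
    apply card_le_two
    intro j hj k hk hjk
    simp only [hS1, Finset.mem_filter, Finset.mem_Ico] at hj hk
    have b1 := pow_le_pow_left₀ hk.1.1 hk.1.2.le 2
    have b2 := pow_le_pow_left₀ (by omega : 0 ≤ j + 1) (by omega : j + 1 ≤ N) 2
    refine hide _ _ ![2 * (j + 1), 4 * (j + 1) ^ 2 + (j + 1), 0, 1]
      ![2 * k, 4 * k ^ 2 + 5 * k - 4 * j - 5, 0, 1] ?_ ?_ ?_ hj.2 hk.2
    · exact memB0 N (j + 1) _ (by omega) (by omega) (by simp) (by simp; nlinarith)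
    · exact memB0 N k _ (by omega) (by omega) (by simp; nlinarith) (by simp; nlinarith)
    · funext i; fin_cases i <;> simp [pB1] <;> ring
  have h00 : ∀ j ∈ S0, ∀ k ∈ S0, ¬ j < k := by
    intro j hj k hk hjk
    simp only [hS0, Finset.mem_filter, Finset.mem_Ico] at hj hk
    have b1 := pow_le_pow_left₀ hk.1.1 hk.1.2.le 2
    have b2 := pow_le_pow_left₀ hj.1.1 hj.1.2.le 2
    refine hide _ _ ![2 * j + 1, 4 * j ^ 2 + 5 * j + 1, 0, 1]
      ![2 * (k - 1) + 1, 4 * k ^ 2 + k - 4 * j - 3, 0, 1] ?_ ?_ ?_ hj.2 hk.2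
    · exact memB1 N j _ (by omega) (by omega) (by simp) (by simp; nlinarith)
    · exact memB1 N (k - 1) _ (by omega) (by omega) (by simp; nlinarith) (by simp; nlinarith)
    · funext i; fin_cases i <;> simp [pB0] <;> ring
  have c0 : S0.card ≤ 1 := by
    rw [Finset.card_le_one]
    intro j hj k hk
    have := h00 j hj k hk; have := h00 k hk j hj; omega
  have hA0 : ∀ j ∈ SA, ∀ k ∈ S0, j = k := by
    intro j hj k hk
    by_contra hne
    simp only [hS0, hSA, Finset.mem_filter, Finset.mem_Ico] at hj hk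
    refine hide _ _ ![j + 2 * k, 2 * j ^ 2 - j - 1 + (4 * k ^ 2 + k - 1), 0, 0] ![0, 0, 1, 1]
      ?_ (memD N) ?_ hj.2 hk.2
    · exact memAB0 N j k hj.1.1 hj.1.2.le hk.1.1 hk.1.2.le hne
    · funext i; fin_cases i <;> simp [pA, pB0]
  have hA1 : ∀ j ∈ SA, ∀ k ∈ S1, False := by
    intro j hj k hk
    simp only [hS1, hSA, Finset.mem_filter, Finset.mem_Ico] at hj hk
    refine hide _ _ ![j + (2 * k + 1), 2 * j ^ 2 - j - 1 + (4 * k ^ 2 + 5 * k), 0, 0]
      ![0, 0, 1, 1] ?_ (memD N) ?_ hj.2 hk.2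
    · exact memAB1 N j k hj.1.1 hj.1.2.le hk.1.1 (by omega)
    · funext i; fin_cases i <;> simp [pA, pB1]
  rcases SA.eq_empty_or_nonempty with e | ⟨j, hj⟩
  · rw [e]; simp only [Finset.card_empty]; omega
  have e1 : S1.card = 0 := by
    rw [Finset.card_eq_zero, Finset.eq_empty_iff_forall_notMem]
    exact fun k hk => hA1 j hj k hk
  rcases S0.eq_empty_or_nonempty with e | ⟨k, hk⟩
  · rw [e]; simp only [Finset.card_empty]; omega
  have : SA.card ≤ 1 := by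
    rw [Finset.card_le_one]
    intro u hu v hv'
    rw [hA0 u hu k hk, hA0 v hv' k hk]
  omega

open Classical in
theorem rc_ge (n m : ℕ) (a : Fin m → Fin 4 → ℝ) (b : Fin m → ℝ)
    (h : ∀ v : Fin 4 → ℤ, (∀ k, a k ⬝ᵥ cst v ≤ b k) ↔ v ∈ X n) : 5 * n ≤ 4 * m := by
  have cov : ∀ p : ℤ → Fin 4 → ℤ, (∀ j, p j ∉ X n) →
      n ≤ ∑ k, ((Finset.Ico (0 : ℤ) n).filter fun j => b k < a k ⬝ᵥ cst (p j)).card := by
    intro p hp
    refine le_trans ?_ Finset.card_biUnion_le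
    have : Finset.Ico (0 : ℤ) n ⊆ Finset.univ.biUnion fun k =>
        (Finset.Ico (0 : ℤ) n).filter fun j => b k < a k ⬝ᵥ cst (p j) := by
      intro j hj
      have := hp j
      rw [← h] at this
      push Not at this
      obtain ⟨k, hk⟩ := this
      exact Finset.mem_biUnion.2 ⟨k, Finset.mem_univ _, Finset.mem_filter.2 ⟨hj, hk⟩⟩
    simpa using Finset.card_le_card this
  have h1 := cov pA (pA_not n)
  have h2 := cov pB0 (pB0_not n)
  have h3 := cov pB1 (pB1_not n)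
  have h4 := Finset.sum_le_sum (s := Finset.univ)
    fun k _ => weight n (a k) (b k) fun v hv => (h v).2 hv k
  simp only [Finset.sum_add_distrib, ← Finset.mul_sum, Finset.sum_const, Finset.card_univ,
    Fintype.card_fin, smul_eq_mul] at h4
  omega

theorem fulldim (N : ℤ) (hN : 1 ≤ N) : affineSpan ℝ (cst '' X N) = ⊤ := by
  have hz : (0 : ℤ) ≤ 20 * N ^ 2 := by positivity
  have m0 : (0 : Fin 4 → ℤ) ∈ X N := memC N 0 0 0 le_rfl (by omega) (by norm_num) (by norm_num)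
    (by norm_num) (by omega)
  have me : ∀ i : Fin 4, (Pi.single i 1 : Fin 4 → ℤ) ∈ X N := by
    intro i
    fin_cases i
    · exact memC N 1 0 0 (by norm_num) (by omega) (by norm_num) (by norm_num) (by norm_num)
        (by omega)
    · exact memC N 0 1 0 le_rfl (by omega) (by norm_num) (by norm_num) (by norm_num) (by omega)
    · exact memA N 0 0 le_rfl (by omega) (by norm_num) (by omega)
    · exact memB0 N 0 0 le_rfl (by omega) (by norm_num) (by omega)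
  have hne : (cst '' X N).Nonempty := ⟨_, _, m0, rfl⟩
  rw [AffineSubspace.affineSpan_eq_top_iff_vectorSpan_eq_top_of_nonempty _ _ _ hne, eq_top_iff,
    ← (Pi.basisFun ℝ (Fin 4)).span_eq, Submodule.span_le]
  rintro _ ⟨i, rfl⟩
  have := vsub_mem_vectorSpan ℝ (Set.mem_image_of_mem cst (me i)) (Set.mem_image_of_mem cst m0)
  have e : (Pi.basisFun ℝ (Fin 4)) i = cst (Pi.single i 1) -ᵥ cst 0 := by
    funext k
    by_cases e : k = i <;> simp [cst, e]
  rw [e]; exact this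

end Pool.Agent.H.MP_288038_co
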